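import Mathlib

/-!
# MP_757726_co: periodicity of generalized pseudostandard words over `d` letters

Sequences are indexed from `0`: `δ n` and `ϑ n` are the letter and the antimorphism used to pass
from the prefix `w_n` to the prefix `w_{n+1}`.
-/

set_option autoImplicit false

namespace Pool.Agent.Results.MP_757726_co.Periodicity

/-- An involutory antimorphism of the free monoid `A^*`. -/
structure InvAnti (A : Type) where
  /-- the map on words -/
  toFun : List A → List A
  map_append' : ∀ v w, toFun (v ++ w) = toFun w ++ toFun v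
  invol' : ∀ w, toFun (toFun w) = w

instance {A : Type} : CoeFun (InvAnti A) (fun _ => List A → List A) := ⟨InvAnti.toFun⟩

/-- `w` is a `θ`-palindrome. -/
def IsPal {A : Type} (θ : InvAnti A) (w : List A) : Prop := θ w = w

/-- `c` is the `θ`-palindromic closure of `w`: a shortest `θ`-palindrome with prefix `w`. -/
def IsClosure {A : Type} (θ : InvAnti A) (w c : List A) : Prop :=
  IsPal θ c ∧ w <+: c ∧ ∀ c', IsPal θ c' → w <+: c' → c.length ≤ c'.length

/-- `w` is a prefix of the infinite word `u`. -/
def IsPrefixOf {A : Type} (w : List A) (u : ℕ → A) : Prop := w = (List.range w.length).map u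

/-- `w 0, w 1, ...` are the prefixes built from the directive bi-sequence `(δ, ϑ)`. -/
def IsPrefixSeq {A : Type} (δ : ℕ → A) (ϑ : ℕ → InvAnti A) (w : ℕ → List A) : Prop :=
  w 0 = [] ∧ ∀ n, IsClosure (ϑ n) (w n ++ [δ n]) (w (n + 1))

/-- The generalized pseudostandard word of `(δ, ϑ)` is `u`, with prefixes `w n`. -/
def Generates {A : Type} (δ : ℕ → A) (ϑ : ℕ → InvAnti A) (w : ℕ → List A) (u : ℕ → A) : Prop :=
  IsPrefixSeq δ ϑ w ∧ ∀ n, IsPrefixOf (w n) u

/-- The directive bi-sequence with prefixes `w n` of the word `u` is normalized: every prefix of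
`u` that is a `θ`-palindrome for some `θ` is one of the `w n`. -/
def IsNormalized {A : Type} (w : ℕ → List A) (u : ℕ → A) : Prop :=
  ∀ (p : List A) (θ : InvAnti A), IsPrefixOf p u → IsPal θ p → ∃ n, w n = p

/-- `u = w v^ω` for finite words `w` and `v`, with `v` nonempty. -/
def IsPeriodic {A : Type} (u : ℕ → A) : Prop :=
  ∃ N P : ℕ, 0 < P ∧ ∀ i, N ≤ i → u (i + P) = u i

/-- Condition 1 for the tail from index `k`. -/
def Cond1 {A : Type} (δ : ℕ → A) (ϑ : ℕ → InvAnti A) (k : ℕ) : Prop :=
  ∀ i j, ϑ (k + i) [δ (k + i + 1)] = ϑ (k + j) [δ (k + j + 1)]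

/-- Condition 2 for the tail from index `k`. -/
def Cond2 {A : Type} (ϑ : ℕ → InvAnti A) (k : ℕ) : Prop :=
  ∀ i w, IsPal (ϑ (k + i)) w → IsPal (ϑ (k + i + 2)) (ϑ (k + i + 1) w)

/-! ### Involutory antimorphisms are given by involutions of the letters -/

section
variable {A : Type}

theorem InvAnti.nil (θ : InvAnti A) : θ [] = [] := by
  have h := θ.map_append' [] []
  simp only [List.append_nil] at h
  have : (θ []).length = (θ []).length + (θ []).length := by
    conv_lhs => rw [h]
    simp
  exact List.length_eq_zero_iff.1 (by omega)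

theorem InvAnti.length_le (θ : InvAnti A) (w : List A) : w.length ≤ (θ w).length := by
  induction w with
  | nil => simp
  | cons a w ih =>
    have h := θ.map_append' [a] w
    have h1 : θ [a] ≠ [] := by
      intro h0
      have := θ.invol' [a]
      rw [h0, θ.nil] at this
      exact absurd this (by simp)
    have h2 : 0 < (θ [a]).length := List.length_pos_iff.2 h1
    rw [List.singleton_append] at h
    rw [h, List.length_append, List.length_cons]
    omega

theorem InvAnti.letters (θ : InvAnti A) : ∃ π : A → A, (∀ a, π (π a) = a) ∧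
    ∀ w, θ w = (w.map π).reverse := by
  have h1 : ∀ a, ∃ b, θ [a] = [b] := by
    intro a
    have h2 := θ.length_le (θ [a])
    rw [θ.invol'] at h2
    have h3 := θ.length_le [a]
    exact List.length_eq_one_iff.1 (le_antisymm (by simpa using h2) (by simpa using h3))
  choose π hπ using h1
  refine ⟨π, ?_, ?_⟩
  · intro a
    have := θ.invol' [a]
    rw [hπ, hπ] at this
    simpa using this
  · intro w
    induction w with
    | nil => simpa using θ.nil
    | cons a w ih =>
      have h := θ.map_append' [a] w
      rw [List.singleton_append] at h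
      rw [h, ih, hπ]
      simp

/-- The antimorphism of an involution of the letters. -/
def ofInvol (τ : A → A) (hτ : ∀ a, τ (τ a) = a) : InvAnti A where
  toFun w := (w.map τ).reverse
  map_append' v w := by simp
  invol' w := by
    rw [List.map_reverse, List.reverse_reverse, List.map_map]
    conv_rhs => rw [← List.map_id w]
    congr 1
    funext a
    exact hτ a

theorem isPal_pre_iff (u : ℕ → A) (π : A → A) (L : ℕ) :
    (((List.range L).map u).map π).reverse = (List.range L).map u ↔
      ∀ i < L, u (L - 1 - i) = π (u i) := by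
  constructor
  · intro h i hi
    have h1 : (((List.range L).map u).map π).reverse[L - 1 - i]? =
        ((List.range L).map u)[L - 1 - i]? := by rw [h]
    rw [List.getElem?_reverse (by simp; omega)] at h1
    simp only [List.length_map, List.length_range, List.getElem?_map] at h1
    rw [show L - 1 - (L - 1 - i) = i by omega, List.getElem?_range hi,
      List.getElem?_range (by omega)] at h1
    simpa using h1.symm
  · intro h
    apply List.ext_getElem?
    intro i
    by_cases hi : i < L
    · rw [List.getElem?_reverse (by simpa using hi)]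
      simp only [List.length_map, List.length_range, List.getElem?_map]
      rw [List.getElem?_range hi, List.getElem?_range (by omega)]
      have := h (L - 1 - i) (by omega)
      rw [show L - 1 - (L - 1 - i) = i by omega] at this
      simp [this]
    · rw [List.getElem?_eq_none (by simpa using hi), List.getElem?_eq_none (by simpa using hi)]

end

/-! ### The structure of the prefixes -/

section
variable {A : Type} {δ : ℕ → A} {ϑ : ℕ → InvAnti A} {w : ℕ → List A} {u : ℕ → A}

theorem facts (hg : Generates δ ϑ w u) : ∃ π : ℕ → A → A, (∀ n a, π n (π n a) = a) ∧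
    (∀ n v, ϑ n v = (v.map (π n)).reverse) ∧ (∀ n, (w n).length < (w (n + 1)).length) ∧
    (∀ n, u (w n).length = δ n) ∧
    (∀ n i, i < (w (n + 1)).length → u ((w (n + 1)).length - 1 - i) = π n (u i)) := by
  obtain ⟨⟨h0, hcl⟩, hpre⟩ := hg
  choose π hπ1 hπ2 using fun n => (ϑ n).letters
  refine ⟨π, hπ1, hπ2, ?_, ?_, ?_⟩
  · intro n
    have := (hcl n).2.1.length_le
    simp at this
    omega
  · intro n
    obtain ⟨t, ht⟩ := (hcl n).2.1
    have h1 : (w (n + 1))[(w n).length]? = some (δ n) := by
      rw [← ht]
      simp
    rw [hpre (n + 1)] at h1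
    have h2 : (w n).length < (w (n + 1)).length := by
      have := (hcl n).2.1.length_le
      simp at this
      omega
    rw [List.getElem?_map, List.getElem?_range h2] at h1
    simpa using h1
  · intro n i hi
    have h1 : ϑ n (w (n + 1)) = w (n + 1) := (hcl n).1
    rw [hπ2, hpre (n + 1)] at h1
    have h2 := (isPal_pre_iff u (π n) _).1 h1
    exact h2 i hi

theorem le_len (hg : Generates δ ϑ w u) (n : ℕ) : n ≤ (w n).length := by
  obtain ⟨π, -, -, h, -, -⟩ := facts hg
  induction n with
  | zero => simp
  | succ n ih =>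
    have := h n
    omega

theorem len_strictMono (hg : Generates δ ϑ w u) : StrictMono (fun n => (w n).length) := by
  obtain ⟨π, -, -, h, -, -⟩ := facts hg
  exact strictMono_nat_of_lt_succ h

/-- Composition of two reflections is a twisted shift. -/
theorem twisted {π : ℕ → A → A}
    (h5 : ∀ n i, i < (w (n + 1)).length → u ((w (n + 1)).length - 1 - i) = π n (u i))
    (h3 : ∀ n, (w n).length < (w (n + 1)).length) (n i : ℕ) (hi : i < (w (n + 1)).length) :
    u (i + ((w (n + 2)).length - (w (n + 1)).length)) = π (n + 1) (π n (u i)) := by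
  have a1 := h5 n i hi
  have a2 : (w (n + 1)).length < (w (n + 2)).length := h3 (n + 1)
  have a3 : u ((w (n + 2)).length - 1 - ((w (n + 1)).length - 1 - i)) =
      π (n + 1) (u ((w (n + 1)).length - 1 - i)) :=
    h5 (n + 1) ((w (n + 1)).length - 1 - i) (show _ < (w (n + 2)).length by omega)
  rw [a1] at a3
  rw [← a3]
  congr 1
  omega

theorem backward [Finite A] (hg : Generates δ ϑ w u) (k : ℕ) (hc1 : Cond1 δ ϑ k)
    (hc2 : Cond2 ϑ k) : IsPeriodic u := by
  obtain ⟨π, h1, h2, h3, h4, h5⟩ := facts hg
  -- condition 2 on letters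
  have c2 : ∀ n, k ≤ n → ∀ a, π (n + 2) (π (n + 1) a) = π (n + 1) (π n a) := by
    intro n hn a
    obtain ⟨i, rfl⟩ := Nat.exists_eq_add_of_le hn
    have hp : IsPal (ϑ (k + i)) [a, π (k + i) a] := by
      unfold IsPal
      rw [h2]
      simp [h1]
    have := hc2 i _ hp
    unfold IsPal at this
    rw [h2, h2] at this
    simp only [List.map_cons, List.map_nil, List.reverse_cons, List.reverse_nil, List.nil_append,
      List.cons_append] at this
    simpa using congrArg List.head? this
  -- condition 1 on letters
  have c1 : ∀ n, k ≤ n → π n (δ (n + 1)) = π (n + 1) (δ (n + 2)) := by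
    intro n hn
    obtain ⟨i, rfl⟩ := Nat.exists_eq_add_of_le hn
    have := hc1 i (i + 1)
    rw [h2, h2] at this
    simpa [Nat.add_assoc] using this
  -- the differences of lengths do not increase
  have hd : ∀ n, k ≤ n → (w (n + 3)).length + (w (n + 1)).length ≤ 2 * (w (n + 2)).length := by
    intro n hn
    have l1 : (w (n + 1)).length < (w (n + 2)).length := h3 (n + 1)
    have l0 := h3 n
    have h5' : ∀ i, i < (w (n + 2)).length →
        u ((w (n + 2)).length - 1 - i) = π (n + 1) (u i) := h5 (n + 1)
    obtain ⟨M, hM⟩ : ∃ M, M = (w (n + 1)).length := ⟨_, rfl⟩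
    obtain ⟨M', hM'⟩ : ∃ M', M' = (w (n + 2)).length := ⟨_, rfl⟩
    have hMM : M < M' := by omega
    -- the palindromic suffix
    have hsuf : ∀ j ≤ M + 1, π (n + 2) (u (M' - M - 1 + j)) = u (M' - j) := by
      intro j hj
      have e0 : u (M' - M - 1) = π (n + 1) (u M) := by
        have := h5' M (by omega)
        rw [← this]
        congr 1
        omega
      have e1 : π n (u M) = π (n + 1) (u M') := by
        rw [hM, hM', h4, h4]
        exact c1 n hn
      have e2 : u M = π n (π (n + 1) (u M')) := by rw [← e1, h1]
      have e3 : π (n + 2) (u (M' - M - 1)) = u M' := by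
        rw [e0, c2 n hn, e2, h1, h1]
      rcases Nat.eq_zero_or_pos j with hj0 | hj0
      · subst hj0
        simpa using e3
      · rcases Nat.lt_or_ge j (M + 1) with hj1 | hj1
        · have t1 := twisted h5 h3 n (j - 1) (by omega)
          have t2 := h5' (j - 1) (by omega)
          rw [← hM, ← hM'] at t1
          rw [← hM'] at t2
          have q1 : M' - M - 1 + j = j - 1 + (M' - M) := by omega
          have q2 : M' - j = M' - 1 - (j - 1) := by omega
          rw [q1, q2, t1, t2, c2 n hn, h1]
        · have hj2 : j = M + 1 := by omega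
          subst hj2
          have q1 : M' - M - 1 + (M + 1) = M' := by omega
          have q2 : M' - (M + 1) = M' - M - 1 := by omega
          rw [q1, q2, ← e3, h1]
    -- the palindrome
    obtain ⟨-, -, hmin⟩ := hg.1.2 (n + 2)
    let v : ℕ → A := fun i => if i ≤ M' then u i else π (n + 2) (u (2 * M' - M - 1 - i))
    have hv : ((List.range (2 * M' - M)).map v) = ϑ (n + 2) ((List.range (2 * M' - M)).map v) := by
      rw [h2]
      symm
      rw [isPal_pre_iff]
      intro i hi
      by_cases ha : i ≤ M'
      · by_cases hb : 2 * M' - M - 1 - i ≤ M'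
        · have := hsuf (M' - (2 * M' - M - 1 - i)) (by omega)
          simp only [v, ha, hb, if_true]
          have q1 : M' - M - 1 + (M' - (2 * M' - M - 1 - i)) = i := by omega
          have q2 : M' - (M' - (2 * M' - M - 1 - i)) = 2 * M' - M - 1 - i := by omega
          rw [q1, q2] at this
          exact this.symm
        · simp only [v, ha, hb, if_true, if_false]
          congr 2
          omega
      · have hb : 2 * M' - M - 1 - i ≤ M' := by omega
        simp only [v, ha, hb, if_true, if_false, h1]
    have hlen := hmin ((List.range (2 * M' - M)).map v) hv.symm (by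
      have hw : w (n + 2) ++ [δ (n + 2)] = (List.range (M' + 1)).map v := by
        rw [List.range_succ, List.map_append, List.map_singleton]
        congr 1
        · rw [hg.2 (n + 2), ← hM']
          apply List.map_congr_left
          intro a ha
          have := List.mem_range.1 ha
          simp only [v]
          rw [if_pos (by omega)]
        · simp only [v, le_refl, if_true]
          rw [hM', h4]
      rw [hw]
      refine ⟨(List.range' (M' + 1) (2 * M' - M - (M' + 1))).map v, ?_⟩
      rw [← List.map_append]
      congr 1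
      have hr := List.range'_append_1 (s := 0) (m := M' + 1) (n := 2 * M' - M - (M' + 1))
      rw [Nat.zero_add] at hr
      rw [List.range_eq_range', List.range_eq_range', hr]
      congr 1
      omega)
    simp only [List.length_map, List.length_range] at hlen
    have : n + 2 + 1 = n + 3 := rfl
    rw [this] at hlen
    omega
  -- the differences are eventually constant
  obtain ⟨n1, hn1, hmin⟩ : ∃ n1, k ≤ n1 ∧ ∀ n, k ≤ n → (w (n1 + 2)).length - (w (n1 + 1)).length ≤
      (w (n + 2)).length - (w (n + 1)).length := by
    have hne : {d | ∃ n, k ≤ n ∧ d = (w (n + 2)).length - (w (n + 1)).length}.Nonempty :=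
      ⟨_, k, le_refl k, rfl⟩
    obtain ⟨n1, hn1, he⟩ := Nat.sInf_mem hne
    refine ⟨n1, hn1, fun n hn => ?_⟩
    rw [← he]
    exact Nat.sInf_le ⟨n, hn, rfl⟩
  obtain ⟨s, hs⟩ : ∃ s, s = (w (n1 + 2)).length - (w (n1 + 1)).length := ⟨_, rfl⟩
  have hconst : ∀ n, n1 ≤ n → (w (n + 2)).length - (w (n + 1)).length = s := by
    intro n hn
    induction n, hn using Nat.le_induction with
    | base => exact hs.symm
    | succ n hn ih =>
      have b1 := hmin (n + 1) (by omega)
      have b2 := hd n (by omega)
      have b3 : (w (n + 1)).length < (w (n + 2)).length := h3 (n + 1)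
      have b4 : (w (n + 2)).length < (w (n + 3)).length := h3 (n + 2)
      have e1 : n + 1 + 2 = n + 3 := rfl
      have e2 : n + 1 + 1 = n + 2 := rfl
      rw [e1, e2] at b1 ⊢
      omega
  have hspos : 0 < s := by
    have := h3 (n1 + 1)
    have e2 : n1 + 1 + 1 = n1 + 2 := rfl
    rw [e2] at this
    omega
  have hσ : ∀ n, n1 ≤ n → ∀ a, π (n + 1) (π n a) = π (n1 + 1) (π n1 a) := by
    intro n hn
    induction n, hn using Nat.le_induction with
    | base => intro a; rfl
    | succ n hn ih =>
      intro a
      rw [← ih a]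
      exact c2 n (by omega) a
  have hshift : ∀ i, u (i + s) = π (n1 + 1) (π n1 (u i)) := by
    intro i
    obtain ⟨n, hn⟩ : ∃ n, n = max n1 i := ⟨_, rfl⟩
    have hl := le_len hg (n + 1)
    have t := twisted h5 h3 n i (by omega)
    rw [hconst n (by omega)] at t
    rw [t]
    exact hσ n (by omega) _
  let e : Equiv.Perm A := (Function.Involutive.toPerm (π (n1 + 1)) (h1 (n1 + 1))) *
    (Function.Involutive.toPerm (π n1) (h1 n1))
  have he : ∀ a, e a = π (n1 + 1) (π n1 a) := fun a => rfl
  have hpow : ∀ m i, u (i + m * s) = (e ^ m) (u i) := by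
    intro m
    induction m with
    | zero => intro i; simp
    | succ m ih =>
      intro i
      rw [pow_succ', Equiv.Perm.mul_apply, ← ih i, he, ← hshift]
      congr 1
      ring
  refine ⟨0, orderOf e * s, Nat.mul_pos (orderOf_pos e) hspos, fun i _ => ?_⟩
  rw [hpow, pow_orderOf_eq_one]
  rfl

theorem forward (hg : Generates δ ϑ w u) (hocc : ∀ a, ∃ i, u i = a) (hn : IsNormalized w u)
    (hp : IsPeriodic u) : ∃ k, Cond1 δ ϑ k ∧ Cond2 ϑ k := by
  obtain ⟨π, h1, h2, h3, h4, h5⟩ := facts hg
  -- pure periodicity
  obtain ⟨N, P, hP, hper⟩ := hp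
  have hpure : ∀ i, u (i + P) = u i := by
    intro i
    obtain ⟨n, hn⟩ : ∃ n, n = N + P + i + 1 := ⟨_, rfl⟩
    have hl := le_len hg (n + 1)
    have a1 := h5 n i (by omega)
    have a2 := h5 n (i + P) (by omega)
    have a3 := hper ((w (n + 1)).length - 1 - (i + P)) (by omega)
    rw [show (w (n + 1)).length - 1 - (i + P) + P = (w (n + 1)).length - 1 - i by omega] at a3
    rw [a1, a2] at a3
    have := congrArg (π n) a3
    rw [h1, h1] at this
    exact this.symm
  have hpureM : ∀ m i, u (i + m * P) = u i := by
    intro m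
    induction m with
    | zero => intro i; simp
    | succ m ih =>
      intro i
      rw [show i + (m + 1) * P = (i + m * P) + P by ring, hpure, ih]
  have hmod : ∀ i, u (i % P) = u i := by
    intro i
    conv_rhs => rw [← Nat.mod_add_div i P, mul_comm]
    exact (hpureM _ _).symm
  have hoccP : ∀ a, ∃ i, i < P ∧ u i = a := by
    intro a
    obtain ⟨i, hi⟩ := hocc a
    exact ⟨i % P, Nat.mod_lt _ hP, by rw [hmod, hi]⟩
  -- the minimal twisted shift
  obtain ⟨s, hs, σ, hσ, hsmin⟩ : ∃ s, 0 < s ∧ ∃ σ : A → A, (∀ i, u (i + s) = σ (u i)) ∧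
      ∀ s', 0 < s' → (∃ σ' : A → A, ∀ i, u (i + s') = σ' (u i)) → s ≤ s' := by
    have hne : {s | 0 < s ∧ ∃ σ : A → A, ∀ i, u (i + s) = σ (u i)}.Nonempty :=
      ⟨P, hP, id, hpure⟩
    obtain ⟨a, σ, b⟩ := Nat.sInf_mem hne
    exact ⟨_, a, σ, b, fun s' h h' => Nat.sInf_le ⟨h, h'⟩⟩
  have hsP : s ≤ P := hsmin P hP ⟨id, hpure⟩
  -- for long prefixes the next pseudopalindromic prefix is `s` letters longer
  have hstep : ∀ n, P ≤ n → (w (n + 2)).length = (w (n + 1)).length + s ∧
      ∀ a, π (n + 1) (π n a) = σ a := by
    intro n hnP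
    have hl := le_len hg (n + 1)
    obtain ⟨M, hM⟩ : ∃ M, M = (w (n + 1)).length := ⟨_, rfl⟩
    have h5n := h5 n
    rw [← hM] at h5n
    -- the reflection of length `M + s`
    have hrefl : ∀ i < M + s, u (M + s - 1 - i) = σ (π n (u i)) := by
      intro i hi
      have key : ∀ i < M, u (M + s - 1 - i) = σ (π n (u i)) := by
        intro i hi
        rw [← h5n i hi, ← hσ]
        congr 1
        omega
      rcases Nat.lt_or_ge i M with h | h
      · exact key i h
      · have a1 := key (i - P) (by omega)
        have a2 : u (i - P) = u i := by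
          have := hpure (i - P)
          rw [show i - P + P = i by omega] at this
          exact this.symm
        have a3 := hpure (M + s - 1 - i)
        rw [show M + s - 1 - i + P = M + s - 1 - (i - P) by omega] at a3
        rw [← a3, a1, a2]
    have hinv : ∀ a, σ (π n (σ (π n a))) = a := by
      intro a
      obtain ⟨i, hi, rfl⟩ := hoccP a
      have a1 := hrefl i (by omega)
      have a2 := hrefl (M + s - 1 - i) (by omega)
      rw [show M + s - 1 - (M + s - 1 - i) = i by omega, a1] at a2
      exact a2.symm
    -- it is one of the `w m`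
    obtain ⟨m, hm⟩ := hn ((List.range (M + s)).map u) (ofInvol (fun a => σ (π n a)) hinv)
      (by simp [IsPrefixOf]) ((isPal_pre_iff u _ _).2 hrefl)
    have hmlen : (w m).length = M + s := by rw [hm]; simp
    have hmn : n + 1 < m := by
      have := (len_strictMono hg).lt_iff_lt (a := n + 1) (b := m)
      apply this.1
      show (w (n + 1)).length < (w m).length
      omega
    have hle : (w (n + 2)).length ≤ M + s := by
      rw [← hmlen]
      exact (len_strictMono hg).monotone (show n + 2 ≤ m by omega)
    have hlt : (w (n + 1)).length < (w (n + 2)).length := h3 (n + 1)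
    -- the shift by the difference
    have hsh : ∀ i, u (i + ((w (n + 2)).length - M)) = π (n + 1) (π n (u i)) := by
      intro i
      have t := twisted h5 h3 n (i % P) (by have := Nat.mod_lt i hP; omega)
      rw [← hM, hmod] at t
      rw [← t, ← hmod (i % P + _), ← hmod (i + _)]
      congr 1
      rw [Nat.mod_add_mod]
    have hge : s ≤ (w (n + 2)).length - M := hsmin _ (by omega) ⟨fun a => π (n + 1) (π n a), hsh⟩
    have heq : (w (n + 2)).length - M = s := by omega
    refine ⟨by omega, fun a => ?_⟩
    obtain ⟨i, -, rfl⟩ := hoccP a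
    rw [heq] at hsh
    rw [← hsh, hσ]
  refine ⟨P, ?_, ?_⟩
  · have hc : ∀ n, P ≤ n → π n (δ (n + 1)) = π (n + 1) (δ (n + 2)) := by
      intro n hn
      obtain ⟨e1, e2⟩ := hstep n hn
      rw [← h4 (n + 1), ← h4 (n + 2), e1, hσ, ← e2, h1]
    have hc' : ∀ i, π (P + i) (δ (P + i + 1)) = π P (δ (P + 1)) := by
      intro i
      induction i with
      | zero => rfl
      | succ i ih =>
        rw [← ih]
        exact (hc (P + i) (by omega)).symm
    intro i j
    rw [h2, h2]
    simp only [List.map_cons, List.map_nil, List.reverse_cons, List.reverse_nil, List.nil_append]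
    rw [hc' i, hc' j]
  · intro i v hv
    obtain ⟨-, e1⟩ := hstep (P + i) (by omega)
    obtain ⟨-, e2⟩ := hstep (P + i + 1) (by omega)
    unfold IsPal at hv ⊢
    rw [h2] at hv ⊢
    rw [h2]
    rw [List.map_reverse, List.reverse_reverse, List.map_map]
    conv_rhs => rw [← hv]
    rw [List.map_reverse, List.reverse_reverse, List.map_map]
    apply List.map_congr_left
    intro a _
    show π (P + i + 2) (π (P + i + 1) a) = π (P + i + 1) (π (P + i) a)
    rw [e1]
    exact e2 a

end

/-- Every directive bi-sequence generates a word (so the definitions are not vacuous). -/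
theorem exists_generates {A : Type} (δ : ℕ → A) (ϑ : ℕ → InvAnti A) :
    ∃ (w : ℕ → List A) (u : ℕ → A), Generates δ ϑ w u := by
  have hcl : ∀ (θ : InvAnti A) (v : List A), ∃ c, IsClosure θ v c := by
    intro θ v
    have hne : {l | ∃ c, IsPal θ c ∧ v <+: c ∧ c.length = l}.Nonempty := by
      refine ⟨_, v ++ θ v, ?_, List.prefix_append _ _, rfl⟩
      show θ (v ++ θ v) = v ++ θ v
      rw [θ.map_append', θ.invol']
    obtain ⟨c, h1, h2, h3⟩ := Nat.sInf_mem hne
    exact ⟨c, h1, h2, fun c' h4 h5 => h3 ▸ Nat.sInf_le ⟨c', h4, h5, rfl⟩⟩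
  choose cl hcl using hcl
  let w : ℕ → List A := fun n => Nat.rec [] (fun m v => cl (ϑ m) (v ++ [δ m])) n
  have hw : ∀ n, w (n + 1) = cl (ϑ n) (w n ++ [δ n]) := fun n => rfl
  have hw' : ∀ n, IsClosure (ϑ n) (w n ++ [δ n]) (w (n + 1)) := fun n => by
    rw [hw]
    exact hcl _ _
  have hpre : ∀ n m, n ≤ m → w n <+: w m := by
    intro n m hnm
    induction m, hnm using Nat.le_induction with
    | base => exact List.prefix_refl _
    | succ m _ ih => exact ih.trans ((List.prefix_append _ _).trans (hw' m).2.1)
  have hlen : ∀ n, n ≤ (w n).length := by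
    intro n
    induction n with
    | zero => simp
    | succ n ih =>
      have := (hw' n).2.1.length_le
      simp at this
      omega
  let u : ℕ → A := fun i => (w (i + 1)).getD i (δ 0)
  refine ⟨w, u, ⟨rfl, hw'⟩, ?_⟩
  intro n
  apply List.ext_getElem?
  intro i
  by_cases hi : i < (w n).length
  · rw [List.getElem?_map, List.getElem?_range hi, List.getElem?_eq_getElem hi]
    have h1 : i < (w (i + 1)).length := hlen (i + 1)
    have h2 : u i = (w (i + 1))[i] := by
      simp only [u, List.getD_eq_getElem?_getD, List.getElem?_eq_getElem h1, Option.getD_some]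
    simp only [Option.map_some, Option.some.injEq]
    rw [h2]
    rcases le_total n (i + 1) with h | h
    · exact (hpre n (i + 1) h).getElem hi
    · exact ((hpre (i + 1) n h).getElem h1).symm
  · rw [List.getElem?_eq_none (by omega), List.getElem?_eq_none (by simpa using hi)]

/-- **Q1 is true.** Let `u` be the generalized pseudostandard word of `(δ, ϑ)` over a finite
alphabet all of whose letters occur in `u`, and let `(δ, ϑ)` be normalized. Then `u` is periodic if
and only if, for some `k`, both conditions hold for the tail of `(δ, ϑ)` from index `k`. -/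
theorem result {A : Type} [Finite A] (δ : ℕ → A) (ϑ : ℕ → InvAnti A) (w : ℕ → List A) (u : ℕ → A)
    (hg : Generates δ ϑ w u) (hocc : ∀ a, ∃ i, u i = a) (hn : IsNormalized w u) :
    IsPeriodic u ↔ ∃ k, Cond1 δ ϑ k ∧ Cond2 ϑ k :=
  ⟨forward hg hocc hn, fun ⟨k, hc1, hc2⟩ => backward hg k hc1 hc2⟩

end Pool.Agent.Results.MP_757726_co.Periodicity
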